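import Mathlib
import Pool.Agent.Y631.WcSup

set_option autoImplicit false

/-!
# Word circuits for problems on lists
-/

open Finset

namespace Pool.Agent.X240.TW

open Pool.Agent.Y631.Wc

/-- A permutation which carries one injective family to another. -/
theorem exists_perm {α : Type} [Finite α] {S : Type} (f g : S → α) (hf : Function.Injective f)
    (hg : Function.Injective g) : ∃ σ : Equiv.Perm α, ∀ s, σ (f s) = g s := by
  classical
  refine ⟨Equiv.extendSubtype (p := (· ∈ Set.range f)) (q := (· ∈ Set.range g))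
    ((Equiv.ofInjective f hf).symm.trans (Equiv.ofInjective g hg)), fun s => ?_⟩
  rw [Equiv.extendSubtype_apply_of_mem _ _ (Set.mem_range_self s)]
  have h : (⟨f s, Set.mem_range_self s⟩ : Set.range f) = Equiv.ofInjective f hf s := rfl
  rw [Equiv.trans_apply, h, Equiv.symm_apply_apply]
  rfl

/-- Instances for all places from instances for one choice of the places. -/
theorem inst_of {X J : Type} {m k q : ℕ} (e : Fin m ≃ J) (F Good : (Fin m → X) → Prop)
    (hF : ∀ (σ : Equiv.Perm (Fin m)) x, F (x ∘ σ) ↔ F x)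
    (hG : ∀ (σ : Equiv.Perm (Fin m)) x, Good x → Good (x ∘ σ))
    (inst : (Fin k → Fin q) → (Fin k → Fin q) → J → X) (pa pe : Fin k → J)
    (hpa : Function.Injective pa) (hpe : Function.Injective pe) (hne : ∀ j j', pa j ≠ pe j')
    (h1 : ∀ a b b' i, (∀ j, pe j ≠ i) → inst a b i = inst a b' i)
    (h2 : ∀ a a' b i, (∀ j, pa j ≠ i) → inst a b i = inst a' b i)
    (h3 : ∀ a b, Good (inst a b ∘ e)) (h4 : ∀ a b, F (inst a b ∘ e) ↔ ∀ j, a j ≠ b j)
    (A E : Finset (Fin m)) (hAE : Disjoint A E) (hkA : k ≤ A.card) (hkE : k ≤ E.card) :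
    HasInst F Good k q A E := by
  classical
  obtain ⟨A', hA', hA'c⟩ := Finset.exists_subset_card_eq hkA
  obtain ⟨E', hE', hE'c⟩ := Finset.exists_subset_card_eq hkE
  obtain ⟨f, hf⟩ : ∃ f : Fin k ≃ A', True := ⟨(A'.equivFinOfCardEq hA'c).symm, trivial⟩
  obtain ⟨g, hg⟩ : ∃ g : Fin k ≃ E', True := ⟨(E'.equivFinOfCardEq hE'c).symm, trivial⟩
  have i1 : Function.Injective (Sum.elim (fun j => (f j : Fin m)) (fun j => (g j : Fin m))) := by
    rintro (j | j) (j' | j') h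
    · have : f j = f j' := Subtype.ext h
      rw [f.injective this]
    · exact absurd h (Finset.disjoint_left.1 hAE (hA' (f j).2) |> fun h' h'' => h' (by
        have : (f j : Fin m) = (g j' : Fin m) := h''
        rw [this]
        exact hE' (g j').2))
    · exact absurd h (Finset.disjoint_left.1 hAE (hA' (f j').2) |> fun h' h'' => h' (by
        have : (g j : Fin m) = (f j' : Fin m) := h''
        rw [← this]
        exact hE' (g j).2))
    · have : g j = g j' := Subtype.ext h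
      rw [g.injective this]
  have i2 : Function.Injective (Sum.elim (fun j => e.symm (pa j)) (fun j => e.symm (pe j))) := by
    rintro (j | j) (j' | j') h
    · rw [hpa (e.symm.injective h)]
    · exact absurd (e.symm.injective h) (hne j j')
    · exact absurd (e.symm.injective h).symm (hne j' j)
    · rw [hpe (e.symm.injective h)]
  obtain ⟨σ, hσ⟩ := exists_perm _ _ i1 i2
  refine ⟨fun a b i => inst a b (e (σ i)), ?_, ?_, ?_, ?_⟩
  · intro a b b' i hi
    refine h1 a b b' _ fun j hj => hi ?_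
    have h5 := hσ (Sum.inr j)
    simp only [Sum.elim_inr] at h5
    rw [hj, Equiv.symm_apply_apply] at h5
    rw [← σ.injective h5]
    exact hE' (g j).2
  · intro a a' b i hi
    refine h2 a a' b _ fun j hj => hi ?_
    have h5 := hσ (Sum.inl j)
    simp only [Sum.elim_inl] at h5
    rw [hj, Equiv.symm_apply_apply] at h5
    rw [← σ.injective h5]
    exact hA' (f j).2
  · intro a b
    exact hG σ _ (h3 a b)
  · intro a b
    exact (hF σ (inst a b ∘ e)).trans (h4 a b)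

/-- **Problems on lists.** -/
theorem list_bounds {r κ θ m L : ℕ} (hr : 1 ≤ r) (hL : 2 ≤ L) {X Z : Type} [Fintype Z]
    (hZ : Fintype.card Z ≤ L) (C : WCirc (Fin m) X Z) (hκ : C.FanIn κ) (hθ : C.TreewidthLE θ)
    (hR : C.reads ≤ r * m) (F Good : (Fin m → X) → Prop)
    (hinst : ∀ k, 1 ≤ k → 2 ^ 25 * k ≤ m → ∀ A E : Finset (Fin m), Disjoint A E → k ≤ A.card →
      k ≤ E.card → HasInst F Good k 2 A E) :
    ((∀ x, Good x → (C.Accepts x ↔ F x)) →
      2 ^ (m / 2 ^ (24 * r + 1)) ≤ L ^ (10000 * r ^ 2 * (κ + 1) * (θ + 1))) ∧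
    (C.Unambiguous → (∀ x, Good x → (C.Accepts x ↔ ¬ F x)) →
      2 ^ (m / 2 ^ (24 * r + 1)) ≤ L ^ (10000 * r ^ 2 * (κ + 1) * (θ + 1)) + 1) := by
  classical
  obtain ⟨k, hk⟩ : ∃ k, k = m / 2 ^ (24 * r + 1) := ⟨_, rfl⟩
  rw [← hk]
  by_cases hk0 : k = 0
  · rw [hk0]
    have h1 : 1 ≤ L ^ (10000 * r ^ 2 * (κ + 1) * (θ + 1)) := Nat.one_le_pow _ _ (by omega)
    exact ⟨fun _ => by simpa using h1, fun _ _ => by simp⟩
  obtain ⟨h1, h2, h3, h4⟩ := numbers hr hk hk0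
  obtain ⟨X1, X2, hX, hX1, hX2⟩ := halves m
  have h25 : 2 ^ 25 * k ≤ m := by
    have e1 : k * 2 ^ (24 * r + 1) ≤ m := by rw [hk]; exact Nat.div_mul_le_self _ _
    have e2 : 2 ^ 25 ≤ 2 ^ (24 * r + 1) := Nat.pow_le_pow_right (by norm_num) (by omega)
    have e3 : k * 2 ^ 25 ≤ k * 2 ^ (24 * r + 1) := Nat.mul_le_mul_left _ e2
    omega
  have h5 := bounds (q := 2) (K := 10000 * r ^ 2 * (κ + 1) * (θ + 1)) C hr hκ hθ hR X1 X2 hX hX1
    hX2 h1 h2 rfl h3 le_rfl hL hZ F Good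
    (fun A hA E hE hkA hkE => hinst k (by omega) h25 A E
      (Finset.disjoint_of_subset_left hA (Finset.disjoint_of_subset_right hE hX)) hkA hkE)
  exact ⟨h5.1, h5.2.2⟩

theorem list_superlinear (κ : ℕ) (ε : ℝ) (hε : 0 < ε) (hε1 : ε ≤ 1) : ∃ m₀ : ℕ,
    ∀ m ≥ m₀, ∀ (X : Type) (F Good : (Fin m → X) → Prop),
      (∀ k, 1 ≤ k → 2 ^ 25 * k ≤ m → ∀ A E : Finset (Fin m), Disjoint A E → k ≤ A.card →
        k ≤ E.card → HasInst F Good k 2 A E) →
      ∀ (Z : Type) [Fintype Z] (w : ℕ), 1 ≤ w → Fintype.card Z ≤ 2 ^ w →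
      ∀ (C : WCirc (Fin m) X Z) (θ : ℕ), C.FanIn κ → C.TreewidthLE θ →
        (((θ + 1) * w : ℕ) : ℝ) ≤ (m : ℝ) ^ (1 - ε) →
        ((∀ x, Good x → (C.Accepts x ↔ F x)) ∨
          (C.Unambiguous ∧ ∀ x, Good x → (C.Accepts x ↔ ¬ F x))) →
        ε / 30 * (m * Real.logb 2 m) ≤ C.reads := by
  obtain ⟨m₀, h2, hm₀⟩ := numeric 1 κ ε hε hε1
  refine ⟨m₀, fun m hm X F Good hinst Z _ w hw hZ C θ hκ hθ hθw hC => ?_⟩
  by_contra hcon
  push Not at hcon
  obtain ⟨r, hr1, hr2, hr3⟩ := choose_r hε (by omega) hcon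
  have hnum := hm₀ m hm r ((θ + 1) * w) hr3 hθw
  have hL : 2 ≤ 2 ^ w := by
    calc 2 = 2 ^ 1 := (pow_one 2).symm
      _ ≤ 2 ^ w := Nat.pow_le_pow_right (by norm_num) hw
  have hb := list_bounds (L := 2 ^ w) hr1 hL hZ C hκ hθ hr2 F Good hinst
  obtain ⟨k, hk⟩ : ∃ k, k = m / 2 ^ (24 * r + 1) := ⟨_, rfl⟩
  obtain ⟨K, hK⟩ : ∃ K, K = 10000 * r ^ 2 * (κ + 1) * (θ + 1) := ⟨_, rfl⟩
  rw [← hk] at hb hnum
  rw [← hK] at hb
  have h3 : 2 ^ k ≤ (2 ^ w) ^ K + 1 := by
    rcases hC with hC | ⟨hU, hC⟩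
    · exact (hb.1 hC).trans (Nat.le_succ _)
    · exact hb.2 hU hC
  have h4 : w * K ≤ 10000 * r ^ 2 * (κ + 1) * ((θ + 1) * w + 1) := by
    rw [hK]
    calc w * (10000 * r ^ 2 * (κ + 1) * (θ + 1)) = 10000 * r ^ 2 * (κ + 1) * ((θ + 1) * w) := by
          ring
      _ ≤ _ := Nat.mul_le_mul_left _ (Nat.le_succ _)
  exact no_bound (m := 2) (c := w) (k := k) (K := K) le_rfl (by omega) h3

end Pool.Agent.X240.TW
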