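import Mathlib
import Pool.Agent.X240.TW.List
import Pool.Agent.X240.Rig.Asks

set_option autoImplicit false

/-!
# Word circuits for generic rigidity in space
-/

open Finset

namespace Pool.Agent.X240.TW.Rig

open Pool.Agent.Y631.Wc Pool.Agent.X240.TW
open Pool.Agent.H283R2.DR (GenRigid IsMotion InfRigid)
open Pool.Agent.TH349.Rig
open Pool.Agent.X240.Gen (graph Simple graph_adj graph_comp simple_comp ncard_edges relabel
  simple_relabel iso)
open Pool.Agent.X240.Rig (rigid genRigid_iso rigid_two')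

variable {k f : ℕ}

/-- the vertices which are not poles: the centre, the vertices `u j`, the vertices `p j c`, and `f`
more vertices -/
abbrev U (k f : ℕ) : Type := Option (Fin k ⊕ (Fin k × Fin 2) ⊕ Fin f)

/-- the vertices: two poles and the others -/
abbrev W (k f : ℕ) : Type := Bool ⊕ U k f

/-- the names of the edges: the edges of `A`, the edges of `E`, the edge between the poles, the edges
at the poles, the edges from `u j` to the centre, the edges from the last `f` vertices to the centre -/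
abbrev J (k f : ℕ) : Type :=
  Fin k ⊕ Fin k ⊕ Option ((Bool × U k f) ⊕ (Fin k ⊕ Fin f))

/-- the centre -/
def cen : W k f := .inr none
/-- the vertex `u j` -/
def vu (j : Fin k) : W k f := .inr (some (.inl j))
/-- the vertex `p j c` -/
def vp (j : Fin k) (c : Fin 2) : W k f := .inr (some (.inr (.inl (j, c))))
/-- the other vertices -/
def vf (i : Fin f) : W k f := .inr (some (.inr (.inr i)))

/-- the edges -/
def lst (a b : Fin k → Fin 2) : J k f → W k f × W k f
  | .inl j => (vu j, vp j (a j))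
  | .inr (.inl j) => (cen, vp j (b j))
  | .inr (.inr none) => (.inl false, .inl true)
  | .inr (.inr (some (.inl q))) => (.inl q.1, .inr q.2)
  | .inr (.inr (some (.inr (.inl j)))) => (vu j, cen)
  | .inr (.inr (some (.inr (.inr i)))) => (vf i, cen)

theorem card_J : Fintype.card (J k f) = 9 * k + 3 * f + 3 := by
  simp
  ring

theorem card_W : Fintype.card (W k f) = 3 * k + f + 3 := by
  simp
  ring

theorem lst_simple (a b : Fin k → Fin 2) : Simple (lst a b : J k f → W k f × W k f) := by
  constructor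
  · rintro (j | j | _ | q | j | i) <;> simp [lst, vu, vp, vf, cen]
  · rintro (j | j | _ | ⟨c, q⟩ | j | i) (j' | j' | _ | ⟨c', q'⟩ | j' | i') h <;>
      simp [lst, vu, vp, vf, cen] at h ⊢
    · exact h.1
    · exact h.1
    · exact h
    · exact h
    · exact h

/-- the two poles -/
def A (k f : ℕ) : Finset (W k f) := {.inl false, .inl true}

theorem mem_Ac {v : W k f} (hv : v ∈ (A k f)ᶜ) : ∃ u : U k f, v = .inr u := by
  rcases v with b | u
  · exfalso
    rw [mem_compl] at hv
    apply hv
    unfold A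
    cases b <;> simp
  · exact ⟨u, rfl⟩

theorem inr_mem (u : U k f) : (.inr u : W k f) ∈ (A k f)ᶜ := by
  rw [mem_compl]
  unfold A
  simp

theorem adj_pole (a b : Fin k → Fin 2) (c : Bool) (u : U k f) :
    (graph (lst a b)).Adj (.inl c) (.inr u) := by
  rw [graph_adj]
  exact ⟨⟨.inr (.inr (some (.inl (c, u)))), Or.inl rfl⟩, by simp⟩

theorem join (a b : Fin k → Fin 2) : Jn (graph (lst a b)) (A k f) (A k f)ᶜ := by
  refine ⟨disjoint_compl_right, fun v ha v' hb => ?_⟩
  obtain ⟨u, rfl⟩ := mem_Ac hb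
  rcases v with c | u'
  · exact adj_pole a b c u
  · exact absurd ha (mem_compl.1 (inr_mem u'))

/-- the other vertices -/
abbrev H (a b : Fin k → Fin 2) :
    SimpleGraph (((A k f)ᶜ : Finset (W k f)) : Set (W k f)) :=
  (graph (lst a b)).induce (((A k f)ᶜ : Finset (W k f)) : Set (W k f))

/-- a vertex of the other side -/
def vx (u : U k f) : (((A k f)ᶜ : Finset (W k f)) : Set (W k f)) := ⟨.inr u, inr_mem u⟩

theorem adj_of (a b : Fin k → Fin 2) (i : J k f) (u v : U k f) (h : lst a b i = (.inr u, .inr v))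
    (huv : u ≠ v) : (H a b).Adj (vx u) (vx v) := by
  rw [SimpleGraph.comap_adj, graph_adj]
  refine ⟨⟨i, Or.inl h⟩, ?_⟩
  intro h'
  exact huv (Sum.inr_injective h')

theorem connected (a b : Fin k → Fin 2) (hab : ∀ j, a j ≠ b j) :
    (H (f := f) a b).Connected := by
  have hu : ∀ j, (H (f := f) a b).Reachable (vx none) (vx (some (.inl j))) := fun j =>
    (adj_of a b (.inr (.inr (some (.inr (.inl j))))) (some (.inl j)) none rfl
      (by simp)).symm.reachable
  have hf : ∀ i, (H (f := f) a b).Reachable (vx none) (vx (some (.inr (.inr i)))) := fun i =>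
    (adj_of a b (.inr (.inr (some (.inr (.inr i))))) (some (.inr (.inr i))) none rfl
      (by simp)).symm.reachable
  have hb : ∀ j, (H (f := f) a b).Reachable (vx none) (vx (some (.inr (.inl (j, b j))))) :=
    fun j => (adj_of a b (.inr (.inl j)) none (some (.inr (.inl (j, b j)))) rfl
      (by simp)).reachable
  have ha : ∀ j, (H (f := f) a b).Reachable (vx none) (vx (some (.inr (.inl (j, a j))))) :=
    fun j => (hu j).trans (adj_of a b (.inl j) (some (.inl j)) (some (.inr (.inl (j, a j)))) rfl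
      (by simp)).reachable
  have h3 : ∀ v, (H (f := f) a b).Reachable (vx none) v := by
    rintro ⟨v, hv⟩
    obtain ⟨u, rfl⟩ := mem_Ac (by simpa using hv)
    rcases u with _ | j | ⟨j, c⟩ | i
    · exact SimpleGraph.Reachable.refl _
    · exact hu j
    · have h4 : c = a j ∨ c = b j := by
        have h5 := hab j
        have h6 := c.2
        have h7 := (a j).2
        have h8 := (b j).2
        have h9 : (a j).1 ≠ (b j).1 := fun h => h5 (Fin.ext h)
        by_cases h10 : c.1 = (a j).1
        · exact Or.inl (Fin.ext h10)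
        · exact Or.inr (Fin.ext (by omega))
      rcases h4 with rfl | rfl
      · exact ha j
      · exact hb j
    · exact hf i
  haveI : Nonempty (((A k f)ᶜ : Finset (W k f)) : Set (W k f)) := ⟨vx none⟩
  exact ⟨fun u v => (h3 u).symm.trans (h3 v)⟩

theorem not_connected (a b : Fin k → Fin 2) (j : Fin k) (hj : a j = b j) :
    ¬ (H (f := f) a b).Connected := by
  intro h
  obtain ⟨c, hc⟩ : ∃ c : Fin 2, c ≠ a j := by
    rcases Nat.lt_or_ge (a j).1 1 with h1 | h1
    · exact ⟨1, fun h2 => by rw [← h2] at h1; simp at h1⟩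
    · exact ⟨0, fun h2 => by rw [← h2] at h1; simp at h1⟩
  have hno : ∀ v, ¬ (H (f := f) a b).Adj (vx (some (.inr (.inl (j, c))))) v := by
    intro v hv
    rw [SimpleGraph.comap_adj, graph_adj] at hv
    obtain ⟨⟨i, hi⟩, -⟩ := hv
    rcases i with j' | j' | _ | ⟨d, q⟩ | j' | i' <;>
      simp only [lst, vx, vu, vp, vf, cen, Prod.mk.injEq, Function.Embedding.subtype_apply,
        Sum.inr.injEq, Option.some.injEq, reduceCtorEq, false_and, and_false, or_false, false_or,
        Sum.inl.injEq] at hi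
    · obtain ⟨-, h1, h2⟩ := hi
      subst h1
      exact hc h2.symm
    · obtain ⟨-, h1, h2⟩ := hi
      subst h1
      rw [← hj] at h2
      exact hc h2.symm
    · obtain ⟨h1, -⟩ := hi
      obtain ⟨u, hu⟩ := mem_Ac (by simpa using v.2)
      rw [hu] at h1
      simp at h1
  obtain ⟨w⟩ := h.preconnected (vx (some (.inr (.inl (j, c))))) (vx none)
  cases w with
  | cons h' _ => exact hno _ h'

theorem genRigid_lst (a b : Fin k → Fin 2) (hk : 1 ≤ k) :
    GenRigid 3 (graph (lst a b : J k f → W k f × W k f)) ↔ ∀ j, a j ≠ b j := by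
  have hcW : Fintype.card (W k f) = 3 * k + f + 3 := card_W
  have hA : (A k f).card = 2 := by
    unfold A
    rw [card_pair]
    simp
  have hAc : (A k f).card + ((A k f)ᶜ).card = Fintype.card (W k f) := card_add_card_compl _
  constructor
  · intro h
    have h3 := threeConnected_of_rigid (by rw [hcW]; omega) h
    by_contra hz
    push Not at hz
    obtain ⟨j, hj⟩ := hz
    apply not_connected (f := f) a b j hj
    have h4 := h3.2 (A k f) hA.le
    have h5 : ((A k f : Set (W k f)))ᶜ = (((A k f)ᶜ : Finset (W k f)) : Set (W k f)) := by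
      rw [coe_compl]
    rw [h5] at h4
    exact h4
  · intro hz
    obtain ⟨p, hp⟩ := Pool.Agent.H789R5.exists_mg (W k f) 3
    rw [Pool.Agent.H789R5.genRigid_iff hp (by rw [hcW]; omega)]
    have hB : 2 ≤ ((A k f)ᶜ).card := by omega
    exact rigid_two' hp (join a b) hA hB (connected a b hz) (by
      rw [ncard_edges (lst_simple a b), Nat.card_eq_fintype_card, card_J, hcW]
      omega)

/-- the instances, for a fixed choice of the places -/
theorem hasInst {n : ℕ} (k : ℕ) (hk1 : 1 ≤ k) (hk : 3 * k + 3 ≤ n) (A E : Finset (Fin (3 * n - 6)))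
    (hAE : Disjoint A E) (hkA : k ≤ A.card) (hkE : k ≤ E.card) :
    HasInst (fun x : Fin (3 * n - 6) → Fin n × Fin n => rigid x = true) Simple k 2 A E := by
  classical
  obtain ⟨f, hf⟩ : ∃ f, f = n - 3 - 3 * k := ⟨_, rfl⟩
  have φ : W k f ≃ Fin n := Fintype.equivFinOfCardEq (by rw [card_W]; omega)
  have e : Fin (3 * n - 6) ≃ J k f :=
    (Fintype.equivFinOfCardEq (by rw [card_J]; omega)).symm
  refine inst_of e (fun x : Fin (3 * n - 6) → Fin n × Fin n => rigid x = true) Simple ?_ ?_
    (fun a b => relabel φ (lst a b)) (fun j => .inl j) (fun j => .inr (.inl j))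
    (fun j j' h => by simpa using h) (fun j j' h => by simpa using h)
    (fun j j' h => by simp at h) ?_ ?_ ?_ ?_ A E hAE hkA hkE
  · intro σ x
    unfold rigid
    rw [graph_comp x σ]
  · intro σ x hx
    exact simple_comp σ hx
  · intro a b b' i hi
    rcases i with i | i | i
    · rfl
    · exact absurd rfl (hi i)
    · rcases i with _ | i | i | i <;> rfl
  · intro a a' b i hi
    rcases i with i | i | i
    · exact absurd rfl (hi i)
    · rfl
    · rcases i with _ | i | i | i <;> rfl
  · intro a b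
    exact simple_comp e (simple_relabel φ (lst_simple a b))
  · intro a b
    show rigid (relabel φ (lst a b) ∘ e) = true ↔ _
    unfold rigid
    rw [graph_comp (relabel φ (lst a b)) e, decide_eq_true_iff]
    exact (genRigid_iso (d := 3) (iso φ (lst a b))).symm.trans (genRigid_lst a b hk1)

/-- **The trade-off.** -/
theorem rig_bounds {r κ θ n L : ℕ} (hr : 1 ≤ r) (hL : 2 ≤ L) {Z : Type} [Fintype Z]
    (hZ : Fintype.card Z ≤ L) (C : WCirc (Fin (3 * n - 6)) (Fin n × Fin n) Z) (hκ : C.FanIn κ)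
    (hθ : C.TreewidthLE θ) (hR : C.reads ≤ r * (3 * n - 6)) :
    ((∀ x, Simple x → (C.Accepts x ↔ rigid x = true)) →
      2 ^ ((3 * n - 6) / 2 ^ (24 * r + 1)) ≤ L ^ (10000 * r ^ 2 * (κ + 1) * (θ + 1))) ∧
    (C.Unambiguous → (∀ x, Simple x → (C.Accepts x ↔ rigid x = false)) →
      2 ^ ((3 * n - 6) / 2 ^ (24 * r + 1)) ≤ L ^ (10000 * r ^ 2 * (κ + 1) * (θ + 1)) + 1) := by
  have h := list_bounds hr hL hZ C hκ hθ hR
    (fun x : Fin (3 * n - 6) → Fin n × Fin n => rigid x = true) Simple
    (fun k hk1 hk A E hAE hkA hkE => hasInst k hk1 (by omega) A E hAE hkA hkE)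
  refine ⟨h.1, fun hU hC => h.2 hU fun x hx => ?_⟩
  rw [hC x hx, Bool.not_eq_true]

theorem rig_superlinear (κ : ℕ) (ε : ℝ) (hε : 0 < ε) (hε1 : ε ≤ 1) : ∃ n₀ : ℕ,
    ∀ n ≥ n₀, ∀ (Z : Type) [Fintype Z] (w : ℕ), 1 ≤ w → Fintype.card Z ≤ 2 ^ w →
      ∀ (C : WCirc (Fin (3 * n - 6)) (Fin n × Fin n) Z) (θ : ℕ), C.FanIn κ → C.TreewidthLE θ →
        (((θ + 1) * w : ℕ) : ℝ) ≤ (n : ℝ) ^ (1 - ε) →
        ((∀ x, Simple x → (C.Accepts x ↔ rigid x = true)) ∨
          (C.Unambiguous ∧ ∀ x, Simple x → (C.Accepts x ↔ rigid x = false))) →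
        ε / 20 * (n * Real.logb 2 n) ≤ C.reads := by
  obtain ⟨m₀, hm₀⟩ := list_superlinear κ ε hε hε1
  refine ⟨max m₀ 6, fun n hn Z _ w hw hZ C θ hκ hθ hθw hC => ?_⟩
  have hn0 : m₀ ≤ n := (le_max_left _ _).trans hn
  have hn6 : 6 ≤ n := (le_max_right _ _).trans hn
  have hcast : ((3 * n - 6 : ℕ) : ℝ) = 3 * n - 6 := by
    rw [Nat.cast_sub (by omega)]
    push_cast
    ring
  have hnR : (6 : ℝ) ≤ n := by exact_mod_cast hn6
  have hm : (2 : ℝ) * n ≤ ((3 * n - 6 : ℕ) : ℝ) := by
    rw [hcast]
    linarith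
  have h := hm₀ (3 * n - 6) (by omega) _
    (fun x : Fin (3 * n - 6) → Fin n × Fin n => rigid x = true) Simple
    (fun k hk1 hk A E hAE hkA hkE => hasInst k hk1 (by omega) A E hAE hkA hkE) Z w hw hZ C θ hκ hθ
    (hθw.trans (Real.rpow_le_rpow (by linarith) (by linarith) (by linarith))) (by
      rcases hC with hC | ⟨hU, hC⟩
      · exact Or.inl hC
      · refine Or.inr ⟨hU, fun x hx => ?_⟩
        rw [hC x hx, Bool.not_eq_true])
  refine le_trans ?_ h
  have hl : Real.logb 2 n ≤ Real.logb 2 ((3 * n - 6 : ℕ) : ℝ) :=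
    Real.logb_le_logb_of_le (by norm_num) (by linarith) (by linarith)
  have hl0 : 0 ≤ Real.logb 2 n := Real.logb_nonneg (by norm_num) (by linarith)
  have h5 : (2 : ℝ) * n * Real.logb 2 n ≤
      ((3 * n - 6 : ℕ) : ℝ) * Real.logb 2 ((3 * n - 6 : ℕ) : ℝ) :=
    mul_le_mul hm hl hl0 (by linarith)
  have h6 := mul_le_mul_of_nonneg_left h5 (by positivity : 0 ≤ ε / 30)
  have h7 : 0 ≤ ε * (n * Real.logb 2 n) := by positivity
  linarith

end Pool.Agent.X240.TW.Rig
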